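import Pool.Agent.P.MP_2c0ed3_al.Strong
import Pool.Agent.P.MP_2c0ed3_al.ZG

set_option autoImplicit false

namespace Pool.Agent.Results.MP_2c0ed3_al.CharDichotomy

open Pool.Agent.P.MP_2c0ed3_al

universe u

/-- Let `F` be any field. The equivalence `a ∈ L(A) ↔ R_a ∈ L(A*)` holds for all Lie algebras `A`
over `F` in which every right multiplication is nilpotent (Engel with `n` depending on `x` only)
and all `a ∈ A` if and only if `F` has characteristic zero. -/
theorem result (F : Type u) [Field F] :
    (∀ (A : Type u) [LieRing A] [LieAlgebra F A],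
      (∀ x : A, ∃ n : ℕ, 1 ≤ n ∧ ∀ y : A, (fun z : A => ⁅z, x⁆)^[n] y = 0) →
        ∀ a : A, a ∈ lieRadical F A ↔ rightMul F A a ∈ multRadical F A) ↔ ringChar F = 0 := by
  refine ⟨fun h => ?_, fun h A _ _ hA a => ?_⟩
  · refine (CharP.char_is_prime_or_zero F (ringChar F)).resolve_left fun hp => ?_
    obtain ⟨τ⟩ := nonempty_TData F
    exact τ.not_mem_multRadical ((h _ (TData.strong_engel (τ := τ) hp) τ.am).1 τ.am_mem)
  · have := (CharP.ringChar_zero_iff_CharZero F).1 h
    exact Z.charZero_case hA a

end Pool.Agent.Results.MP_2c0ed3_al.CharDichotomy
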