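import Pool.Agent.P.MP_2c0ed3_al.Weak

set_option autoImplicit false

namespace Pool.Agent.Results.MP_2c0ed3_al.EngelCounter

open Pool.Agent.P.MP_2c0ed3_al

universe u

/-- Over every field there are an Engel Lie algebra `A` and `a ∈ A` with `a ∈ L(A)` and
`R_a ∉ L(A*)`. -/
theorem result (F : Type u) [Field F] :
    ∃ (A : Type u) (_ : LieRing A) (_ : LieAlgebra F A),
      IsEngel A ∧ ∃ a : A, a ∈ lieRadical F A ∧ rightMul F A a ∉ multRadical F A := by
  refine ⟨B F, inferInstance, inferInstance, engel, mk 1 0, ?_, ?_⟩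
  · have : (⊤ : LieIdeal F (B F)) ≤ lieRadical F (B F) := le_sSup top_locNil
    exact this (LieSubmodule.mem_top _)
  · exact fun h => not_nilpotent (isNilpotent_of_mem_multRadical h)

end Pool.Agent.Results.MP_2c0ed3_al.EngelCounter
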